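import Mathlib
import Pool.Agent.X203.ExpF

/-!
# Exposed points of unit balls of constrained `H^∞` spaces (Q1, proved)

The circle is `ℝ / 2πℤ` (the point `x` stands for `ζ = e^{ix}`) and `m` is its normalised Haar
measure.
-/

namespace Pool.Agent.Results.MP_4ac5ef_an.ExposedPoints

open MeasureTheory
open scoped ENNReal
open Pool.Agent.H270R3.Cap (Circ m)

/-- `L^∞(𝕋, m)` with the essential supremum norm -/
def Linf : Type := Lp ℂ ∞ m

noncomputable instance instLinfN : NormedAddCommGroup Linf :=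
  (inferInstance : NormedAddCommGroup (Lp ℂ ∞ m))

noncomputable instance instLinfS : NormedSpace ℂ Linf :=
  (inferInstance : NormedSpace ℂ (Lp ℂ ∞ m))

/-- the underlying function on the circle -/
noncomputable def Linf.fn (f : Linf) : Circ → ℂ := ⇑(show Lp ℂ ∞ m from f)

theorem add_aux {f g : Linf} (hf : ∀ k : ℤ, k < 0 → fourierCoeff f.fn k = 0)
    (hg : ∀ k : ℤ, k < 0 → fourierCoeff g.fn k = 0) :
    ∀ k : ℤ, k < 0 → fourierCoeff (f + g).fn k = 0 :=
  Pool.Agent.X203.Exp.HI.add_mem (x := f) (y := g) hf hg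

theorem zero_aux : ∀ k : ℤ, k < 0 → fourierCoeff (0 : Linf).fn k = 0 :=
  Pool.Agent.X203.Exp.HI.zero_mem

theorem smul_aux (c : ℂ) {f : Linf} (hf : ∀ k : ℤ, k < 0 → fourierCoeff f.fn k = 0) :
    ∀ k : ℤ, k < 0 → fourierCoeff (c • f).fn k = 0 :=
  Pool.Agent.X203.Exp.HI.smul_mem (x := f) c hf

/-- `H^∞` as a subspace of `L^∞`: the Fourier coefficients of negative index vanish -/
def HinfSub : Submodule ℂ Linf where
  carrier := {f | ∀ k : ℤ, k < 0 → fourierCoeff f.fn k = 0}
  add_mem' := add_aux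
  zero_mem' := zero_aux
  smul_mem' := fun c _ hf => smul_aux c hf

/-- the Banach space `H^∞` -/
def Hinf : Type := HinfSub

noncomputable instance instHinfN : NormedAddCommGroup Hinf :=
  (inferInstance : NormedAddCommGroup HinfSub)

noncomputable instance instHinfS : NormedSpace ℂ Hinf :=
  (inferInstance : NormedSpace ℂ HinfSub)

/-- the boundary function of `f ∈ H^∞` -/
noncomputable def Hinf.fn (f : Hinf) : Circ → ℂ := Linf.fn (Subtype.val (show HinfSub from f))

/-- the space `H^∞_Φ = {f ∈ H^∞ : φ(f) = 0 for all φ ∈ Φ}` -/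
def Constrained (Φ : Finset (StrongDual ℂ Hinf)) : Submodule ℂ Hinf where
  carrier := {f | ∀ φ ∈ Φ, φ f = 0}
  add_mem' := fun {f g} hf hg φ hφ => by rw [map_add, hf φ hφ, hg φ hφ, add_zero]
  zero_mem' := fun φ _ => map_zero φ
  smul_mem' := fun c f hf φ hφ => by rw [map_smul, hf φ hφ, smul_zero]

/-- `x` is an exposed point of the closed unit ball of `X` -/
def IsExposed {X : Type*} [NormedAddCommGroup X] [NormedSpace ℂ X] (x : X) : Prop :=
  ∃ φ : StrongDual ℂ X, ‖φ‖ = 1 ∧ {y : X | ‖y‖ ≤ 1 ∧ φ y = 1} = {x}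

/-- the identification with the library's version of `H^∞` -/
noncomputable def ident : Hinf ≃ₗᵢ[ℂ] Pool.Agent.X203.Exp.HI where
  toFun := fun f => ⟨(Subtype.val (show HinfSub from f) : Linf), (show HinfSub from f).2⟩
  invFun := fun f => (⟨(Subtype.val f : Linf), f.2⟩ : HinfSub)
  left_inv := fun _ => rfl
  right_inv := fun _ => rfl
  map_add' := fun _ _ => rfl
  map_smul' := fun _ _ => rfl
  norm_map' := fun _ => rfl

theorem ident_fn (f : Hinf) : f.fn = ((ident f : Pool.Agent.X203.Exp.HI) : Lp ℂ ∞ m) := rfl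

/-- **Q1, proved.** For every (nonempty) finite set `Φ` of bounded functionals on `H^∞`, a function
`f ∈ H^∞_Φ` is an exposed point of the unit ball of `H^∞_Φ` if and only if `‖f‖ = 1` and
`|f| = 1` on a set of positive measure. -/
theorem result (Φ : Finset (StrongDual ℂ Hinf)) (_hΦ : Φ.Nonempty) (f : Constrained Φ) :
    IsExposed f ↔ ‖f‖ = 1 ∧ 0 < m {ζ | ‖(f : Hinf).fn ζ‖ = 1} := by
  constructor
  · rintro ⟨φ, hφ1, hφ2⟩
    have hfm : f ∈ {y : Constrained Φ | ‖y‖ ≤ 1 ∧ φ y = 1} := by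
      rw [hφ2]; exact Set.mem_singleton f
    have hf1 : ‖f‖ ≤ 1 := hfm.1
    have hφf : φ f = 1 := hfm.2
    have hfn : ‖f‖ = 1 := by
      apply le_antisymm hf1
      have := φ.le_opNorm f
      rw [hφf, norm_one, hφ1, one_mul] at this
      exact this
    refine ⟨hfn, ?_⟩
    by_contra hcon
    have hm : m {x | ‖(f : Hinf).fn x‖ = 1} = 0 := by
      by_contra h
      exact hcon (pos_iff_ne_zero.2 h)
    obtain ⟨φ0, h01, h02⟩ := exists_extension_norm_eq (Constrained Φ) φ
    set S : Pool.Agent.X203.Exp.HI →L[ℂ] Hinf :=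
      (ident.symm.toLinearIsometry).toContinuousLinearMap with hS
    have hSv : ∀ g, S g = ident.symm g := fun g => rfl
    have hSn : ‖S‖ ≤ 1 := (ident.symm.toLinearIsometry).norm_toContinuousLinearMap_le
    obtain ⟨g, hg1, hg2, hg3, hg4⟩ := Pool.Agent.X203.Exp.hard
      (fun i : Φ => (i : StrongDual ℂ Hinf).comp S) (ident (f : Hinf))
      (fun i => by
        show (i : StrongDual ℂ Hinf) (S (ident (f : Hinf))) = 0
        rw [hSv, LinearIsometryEquiv.symm_apply_apply]
        exact f.2 _ i.2)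
      (by rw [LinearIsometryEquiv.norm_map]; exact hf1) hm (φ0.comp S)
      (by
        refine (ContinuousLinearMap.opNorm_comp_le _ _).trans ?_
        rw [h02, hφ1, one_mul]
        exact hSn)
      (by
        show φ0 (S (ident (f : Hinf))) = 1
        rw [hSv, LinearIsometryEquiv.symm_apply_apply, h01]
        exact hφf)
    have hgK : S g ∈ Constrained Φ := fun φ' hφ' => hg3 ⟨φ', hφ'⟩
    have h1 : (⟨S g, hgK⟩ : Constrained Φ) ∈ {y : Constrained Φ | ‖y‖ ≤ 1 ∧ φ y = 1} := by
      refine ⟨?_, ?_⟩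
      · show ‖S g‖ ≤ 1
        rw [hSv, LinearIsometryEquiv.norm_map]
        exact hg2
      · rw [← h01]; exact hg4
    rw [hφ2, Set.mem_singleton_iff] at h1
    apply hg1
    rw [← h1]
    show g = ident (S g)
    rw [hSv, LinearIsometryEquiv.apply_symm_apply]
  · rintro ⟨hf, hm⟩
    obtain ⟨Λ, h1, h2, h3⟩ := Pool.Agent.X203.Exp.expose (ident (f : Hinf)) hm
    set J : Hinf →L[ℂ] Lp ℂ ∞ m :=
      (Pool.Agent.X203.Exp.HI.subtypeL).comp (ident.toLinearIsometry).toContinuousLinearMap with hJ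
    have hJv : ∀ g, J g = ((ident g : Pool.Agent.X203.Exp.HI) : Lp ℂ ∞ m) := fun g => rfl
    have hJn : ∀ g, ‖J g‖ = ‖g‖ := fun g => rfl
    set φ : StrongDual ℂ (Constrained Φ) := (Λ.comp J).comp (Constrained Φ).subtypeL with hφ
    have hφv : ∀ y, φ y = Λ (J (y : Hinf)) := fun y => rfl
    have hφ1 : ‖φ‖ ≤ 1 := by
      apply ContinuousLinearMap.opNorm_le_bound _ zero_le_one
      intro y
      have := h1 (J (y : Hinf))
      rw [hJn] at this
      exact this
    have hφf : φ f = 1 := h2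
    refine ⟨φ, le_antisymm hφ1 ?_, ?_⟩
    · have h4 := φ.le_opNorm f
      rw [hφf, norm_one, hf, mul_one] at h4
      exact h4
    · ext y
      simp only [Set.mem_ofPred_eq, Set.mem_singleton_iff]
      constructor
      · rintro ⟨hy1, hy2⟩
        have h4 := h3 (ident (y : Hinf)) hy1 hy2
        have h5 : ident (y : Hinf) = ident (f : Hinf) := Subtype.ext h4
        exact Subtype.ext (ident.injective h5)
      · rintro rfl
        exact ⟨hf.le, hφf⟩

end Pool.Agent.Results.MP_4ac5ef_an.ExposedPoints
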